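import Pool.Agent.Q186.Loc.Four
import Pool.Agent.Y736.HG9

/-!
# The number of superattracting parameters near parameters with a positive exponent
-/

set_option autoImplicit false

open Complex Metric Set Filter Topology MeasureTheory N62a1eb23

namespace Pool.Agent.Q186.Loc

open Pool.Agent.H712R2 (P P_zero P_one P_succ mem_multibrot_iff)
open Pool.Agent.H713R2
open Pool.Agent.Q186.Cen
open Pool.Agent.Y298.CA Pool.Agent.Y298.SH.CD
open Pool.Agent.Y736.HD (Ang vol_Ang_ne)

/-- Parameters with a positive exponent are boundary parameters. -/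
theorem lyap_frontier {d : ℕ} (hd : 2 ≤ d) {χ : ℝ} {c₀ : ℂ} (h : Lyap d χ c₀) :
    c₀ ∈ frontier (multibrotSet d) := by
  have hχ : 0 < χ := h.1
  refine ⟨subset_closure h.2.1, ?_⟩
  intro hint
  obtain ⟨⟨C₁, lam, hc⟩, hlya⟩ := Pool.Agent.Y674.CA.lya d χ c₀ hd h
  obtain ⟨C, hC, H⟩ := hlya (χ / 2) (by linarith)
  obtain ⟨κ₀, ε', J, hκ₀, hε', hgrow⟩ := hc.grow
  obtain ⟨δ, hδ, hball⟩ := Metric.isOpen_iff.1 isOpen_interior c₀ hint
  have hC0 : 0 < C := by linarith
  have hbd : ∀ k, ‖deriv (P d k) c₀‖ ≤ 2 / (δ / 2) := by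
    intro k
    apply Complex.norm_deriv_le_of_forall_mem_sphere_norm_le (by positivity)
      (differentiable_P d k).diffContOnCl
    intro z hz
    have h1 : z ∈ ball c₀ δ := by
      rw [mem_sphere] at hz
      rw [mem_ball, hz]
      linarith
    exact (mem_multibrot_iff hd z).1 (interior_subset (hball h1)) k
  have h1 : Tendsto (fun M : ℕ => κ₀ * (Real.exp ((χ - χ / 2) * M) / C)) atTop atTop := by
    apply Tendsto.const_mul_atTop hκ₀
    apply Tendsto.atTop_div_const hC0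
    apply Real.tendsto_exp_atTop.comp
    exact tendsto_natCast_atTop_atTop.const_mul_atTop (by linarith)
  obtain ⟨M, hM1, hM2⟩ := ((h1.eventually (eventually_gt_atTop (2 / (δ / 2)))).and
    (eventually_ge_atTop J)).exists
  have h4 : κ₀ * Pd d c₀ M ≤ ‖deriv (P d (M + 1)) c₀‖ := by
    apply hgrow c₀ hc c₀ (by rw [sub_self, norm_zero]; exact hε'.le) M (by omega)
    intro j _
    have h5 : Pd d c₀ j = ‖deriv ((Pool.Agent.TH279.MD.f d c₀)^[j]) c₀‖ := rfl
    rw [h5]
    linarith [norm_nonneg (deriv ((Pool.Agent.TH279.MD.f d c₀)^[j]) c₀)]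
  obtain ⟨h5, -, -⟩ := H M
  have h8 : Real.exp ((χ - χ / 2) * M) / C ≤ Pd d c₀ M := by
    rw [div_le_iff₀ hC0]
    linarith
  have h9 : κ₀ * (Real.exp ((χ - χ / 2) * M) / C) ≤ κ₀ * Pd d c₀ M := by gcongr
  have h10 := hbd (M + 1)
  linarith

/-- The measure of shrinking discs. -/
theorem log_vol {d : ℕ} (hd : 2 ≤ d) {χ : ℝ} {c₀ : ℂ} (h : Lyap d χ c₀) {ψ : ℂ → ℂ}
    (hψ : IsExteriorMap (multibrotSet d) ψ) {s a : ℝ} (hs : 0 < s) (ha : 0 < a) :
    Tendsto (fun N : ℕ => Real.log (volume (Ang ψ c₀ (a * Real.exp (-s * N)))).toReal / N) atTop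
      (𝓝 (-(s * (Real.log d / χ)))) := by
  have hexp : Tendsto (fun N : ℕ => a * Real.exp (-s * N)) atTop (𝓝 0) := by
    have h1 : Tendsto (fun N : ℕ => Real.exp (-s * N)) atTop (𝓝 0) := by
      apply Real.tendsto_exp_atBot.comp
      exact tendsto_natCast_atTop_atTop.const_mul_atTop_of_neg (by linarith)
    simpa using h1.const_mul a
  have hρ : Tendsto (fun N : ℕ => a * Real.exp (-s * N)) atTop (𝓝[>] 0) := by
    rw [tendsto_nhdsWithin_iff]
    exact ⟨hexp, Eventually.of_forall fun N => by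
      show 0 < a * Real.exp (-s * N)
      positivity⟩
  have h1 := (Pool.Agent.Y736.HG.vol_exp hd h hψ).comp hρ
  have h2 : Tendsto (fun N : ℕ => Real.log (a * Real.exp (-s * N)) / N) atTop (𝓝 (-s)) := by
    have h3 := lim_lin (Real.log a) (-s)
    refine h3.congr fun N => ?_
    rw [Real.log_mul ha.ne' (Real.exp_pos _).ne', Real.log_exp]
  have h3 := h1.mul h2
  have e : Real.log d / χ * -s = -(s * (Real.log d / χ)) := by ring
  rw [e] at h3
  refine h3.congr' ?_
  filter_upwards [hexp.eventually (gt_mem_nhds one_pos), eventually_gt_atTop 0] with N hN1 hN2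
  have h4 : Real.log (a * Real.exp (-s * N)) ≠ 0 :=
    (Real.log_neg (by positivity) hN1).ne
  show Real.log (volume (Ang ψ c₀ (a * Real.exp (-s * N)))).toReal /
    Real.log (a * Real.exp (-s * N)) * (Real.log (a * Real.exp (-s * N)) / N) = _
  rw [div_mul_div_cancel₀ h4]

theorem vol_pos {d : ℕ} (hd : 2 ≤ d) {χ : ℝ} {c₀ : ℂ} (h : Lyap d χ c₀) {ψ : ℂ → ℂ}
    (hψ : IsExteriorMap (multibrotSet d) ψ) {s a : ℝ} (hs : 0 < s) (ha : 0 < a) :
    ∀ᶠ N : ℕ in atTop, 0 < (volume (Ang ψ c₀ (a * Real.exp (-s * N)))).toReal := by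
  have hexp : Tendsto (fun N : ℕ => a * Real.exp (-s * N)) atTop (𝓝 0) := by
    have h1 : Tendsto (fun N : ℕ => Real.exp (-s * N)) atTop (𝓝 0) := by
      apply Real.tendsto_exp_atBot.comp
      exact tendsto_natCast_atTop_atTop.const_mul_atTop_of_neg (by linarith)
    simpa using h1.const_mul a
  have hρ : Tendsto (fun N : ℕ => a * Real.exp (-s * N)) atTop (𝓝[>] 0) := by
    rw [tendsto_nhdsWithin_iff]
    exact ⟨hexp, Eventually.of_forall fun N => by
      show 0 < a * Real.exp (-s * N)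
      positivity⟩
  filter_upwards [hρ.eventually (Pool.Agent.Y736.HG.vol_lower hd h hψ one_pos)] with N hN
  refine lt_of_lt_of_le ?_ hN
  positivity

theorem lim_log : Tendsto (fun N : ℕ => Real.log N / N) atTop (𝓝 0) := by
  have h1 := (Real.isLittleO_log_id_atTop.tendsto_div_nhds_zero).comp
    tendsto_natCast_atTop_atTop (α := ℕ)
  exact h1

/-- **The number of superattracting parameters near a parameter with a positive exponent.** -/
theorem law {d : ℕ} (hd : 2 ≤ d) {χ : ℝ} {c₀ : ℂ} (h : Lyap d χ c₀) {s : ℝ} (hs : 0 < s)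
    (hsχ : s < χ) :
    Tendsto (fun N : ℕ => Real.log (num d c₀ N (Real.exp (-s * N))) / N) atTop
      (𝓝 (Real.log d * (1 - s / χ))) := by
  obtain ⟨β, hβ⟩ := exists_beta (d := d) hd
  have hψ := exteriorMap_of_beta hβ
  obtain ⟨ψ, hψe⟩ : ∃ ψ, ψ = fun z => z * β z⁻¹ := ⟨_, rfl⟩
  have hψ' : IsExteriorMap (multibrotSet d) ψ := by rw [hψe]; exact hψ
  have hχ : 0 < χ := h.1
  have hdR : (1 : ℝ) < d := by exact_mod_cast (by omega : 1 < d)
  have hd0 : (0 : ℝ) < d := by linarith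
  have hlogd : 0 < Real.log d := Real.log_pos hdR
  have hfr := lyap_frontier hd h
  obtain ⟨Cu, hCu, HU⟩ := upper hd
  obtain ⟨Cl, hCl, HL⟩ := lower hd
  have hlim0 : 0 < Real.log d * (1 - s / χ) := by
    have : s / χ < 1 := by rw [div_lt_one hχ]; exact hsχ
    apply mul_pos hlogd
    linarith
  have e0 : Real.log d * (1 - s / χ) = Real.log d + -(s * (Real.log d / χ)) := by
    field_simp
    ring
  -- the logarithms of the measures
  obtain ⟨V, hV⟩ : ∃ V : ℝ → ℕ → ℝ, V = fun (a : ℝ) (N : ℕ) =>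
      (volume (Ang ψ c₀ (a * Real.exp (-s * N)))).toReal := ⟨_, rfl⟩
  have hlim : ∀ a : ℝ, 0 < a → Tendsto (fun N : ℕ => Real.log ((d : ℝ) ^ N * V a N) / N) atTop
      (𝓝 (Real.log d * (1 - s / χ))) := by
    intro a ha
    rw [e0]
    have h1 := (log_vol hd h hψ' hs ha).const_add (Real.log d)
    refine h1.congr' ?_
    filter_upwards [vol_pos hd h hψ' hs ha, eventually_gt_atTop 0] with N hN1 hN2
    have hN : (N : ℝ) ≠ 0 := by exact_mod_cast hN2.ne'
    rw [hV, Real.log_mul (by positivity) hN1.ne', Real.log_pow]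
    field_simp
  have hVpos : ∀ a : ℝ, 0 < a → ∀ᶠ N : ℕ in atTop, 0 < V a N := by
    intro a ha
    rw [hV]
    exact vol_pos hd h hψ' hs ha
  have hlarge : ∀ a : ℝ, 0 < a → ∀ ε : ℝ, 0 < ε → ε < Real.log d * (1 - s / χ) →
      ∀ᶠ N : ℕ in atTop, Real.exp (ε * N) ≤ (d : ℝ) ^ N * V a N := by
    intro a ha ε hε hε2
    filter_upwards [(hlim a ha).eventually (lt_mem_nhds hε2), eventually_gt_atTop 0, hVpos a ha]
      with N hN1 hN2 hN3
    have hN : (0 : ℝ) < N := by exact_mod_cast hN2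
    rw [lt_div_iff₀ hN] at hN1
    rw [← Real.le_log_iff_exp_le (by positivity)]
    exact hN1.le
  have hexp1 : ∀ N : ℕ, Real.exp (-s * N) ≤ 1 := by
    intro N
    rw [← Real.exp_zero]
    apply Real.exp_le_exp.2
    have : (0 : ℝ) ≤ N := Nat.cast_nonneg N
    nlinarith
  obtain ⟨ε, hε⟩ : ∃ ε, ε = Real.log d * (1 - s / χ) / 2 := ⟨_, rfl⟩
  have hε0 : 0 < ε := by rw [hε]; linarith
  have hε1 : ε < Real.log d * (1 - s / χ) := by rw [hε]; linarith
  have hlin : ∀ K : ℝ, ∀ᶠ N : ℕ in atTop, K * N ≤ Real.exp (ε * N) := by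
    intro K
    have h1 : Tendsto (fun x : ℝ => Real.exp (ε * x) / x) atTop atTop := by
      have := tendsto_exp_mul_div_rpow_atTop 1 ε hε0
      simpa using this
    have h2 := h1.comp (tendsto_natCast_atTop_atTop (R := ℝ))
    filter_upwards [h2.eventually (eventually_ge_atTop K), eventually_gt_atTop 0] with N hN1 hN2
    have hN : (0 : ℝ) < N := by exact_mod_cast hN2
    have h3 : K ≤ Real.exp (ε * N) / N := hN1
    rwa [le_div_iff₀ hN] at h3
  -- the lower bound of the number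
  have hlow : ∀ᶠ N : ℕ in atTop, (d : ℝ) ^ N * V (1 / 16) N ≤
      2 * Cl * N * num d c₀ N (Real.exp (-s * N)) := by
    filter_upwards [hlarge (1 / 16) (by norm_num) ε hε0 hε1, hlin (2 * Cl),
      eventually_ge_atTop 1] with N hN1 hN2 hN3
    have h1 := HL ψ hψ' c₀ hfr (Real.exp (-s * N)) (Real.exp_pos _) (hexp1 N) N hN3
    have e1 : Real.exp (-s * N) / 16 = 1 / 16 * Real.exp (-s * N) := by ring
    rw [e1] at h1
    have e2 : (volume (Ang ψ c₀ (1 / 16 * Real.exp (-s * N)))).toReal = V (1 / 16) N := by rw [hV]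
    rw [e2] at h1
    linarith
  have hnumpos : ∀ᶠ N : ℕ in atTop, 0 < (num d c₀ N (Real.exp (-s * N)) : ℝ) := by
    filter_upwards [hlow, hVpos (1 / 16) (by norm_num)] with N hN1 hN2
    rcases (Nat.cast_nonneg (α := ℝ) (num d c₀ N (Real.exp (-s * N)))).eq_or_lt with h1 | h1
    · rw [← h1, mul_zero] at hN1
      have : 0 < (d : ℝ) ^ N * V (1 / 16) N := by positivity
      linarith
    · exact h1
  have hlowlim : Tendsto (fun N : ℕ => Real.log ((d : ℝ) ^ N * V (1 / 16) N) / N -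
      (Real.log (2 * Cl) / N + Real.log N / N)) atTop (𝓝 (Real.log d * (1 - s / χ))) := by
    have h1 := (hlim (1 / 16) (by norm_num)).sub
      ((tendsto_const_div_atTop_nhds_zero_nat (Real.log (2 * Cl))).add lim_log)
    simpa using h1
  have huplim : Tendsto (fun N : ℕ => Real.log (2 * Cu) / N + 2 * (Real.log N / N) +
      Real.log ((d : ℝ) ^ N * V 3 N) / N) atTop (𝓝 (Real.log d * (1 - s / χ))) := by
    have h1 := ((tendsto_const_div_atTop_nhds_zero_nat (Real.log (2 * Cu))).add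
      (lim_log.const_mul 2)).add (hlim 3 (by norm_num))
    simpa using h1
  refine tendsto_of_tendsto_of_tendsto_of_le_of_le' hlowlim huplim ?_ ?_
  · filter_upwards [hlow, hnumpos, hVpos (1 / 16) (by norm_num), eventually_gt_atTop 0]
      with N hN1 hN2 hN3 hN4
    have hN : (0 : ℝ) < N := by exact_mod_cast hN4
    have h1 := Real.log_le_log (by positivity) hN1
    rw [Real.log_mul (by positivity) hN2.ne', Real.log_mul (by positivity) hN.ne'] at h1
    rw [← add_div, ← sub_div]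
    apply div_le_div_of_nonneg_right _ hN.le
    linarith
  · filter_upwards [hnumpos, hVpos 3 (by norm_num), eventually_ge_atTop 1,
      hlarge 3 (by norm_num) ε hε0 hε1] with N hN1 hN2 hN3 hN4
    have hN : (1 : ℝ) ≤ N := by exact_mod_cast hN3
    have h1 := HU ψ hψ' c₀ hfr (Real.exp (-s * N)) (Real.exp_pos _) (hexp1 N) N hN3
    have e2 : (volume (Ang ψ c₀ (3 * Real.exp (-s * N)))).toReal = V 3 N := by rw [hV]
    rw [e2] at h1
    have h2 : 1 ≤ (d : ℝ) ^ N * V 3 N := by
      refine le_trans ?_ hN4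
      rw [← Real.exp_zero]
      apply Real.exp_le_exp.2
      positivity
    have h3 : (num d c₀ N (Real.exp (-s * N)) : ℝ) ≤ 2 * Cu * N ^ 2 * ((d : ℝ) ^ N * V 3 N) := by
      refine h1.trans ?_
      have h4 : (N : ℝ) ^ 2 ≤ N ^ 2 * ((d : ℝ) ^ N * V 3 N) := by
        have : 0 ≤ (N : ℝ) ^ 2 := by positivity
        nlinarith
      have h5 : (N : ℝ) * (d : ℝ) ^ N * V 3 N ≤ N ^ 2 * ((d : ℝ) ^ N * V 3 N) := by
        have h6 : 0 ≤ (d : ℝ) ^ N * V 3 N := by linarith
        have h7 : (N : ℝ) ≤ N ^ 2 := by nlinarith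
        calc (N : ℝ) * (d : ℝ) ^ N * V 3 N = N * ((d : ℝ) ^ N * V 3 N) := by ring
          _ ≤ _ := by gcongr
      nlinarith
    have h4 := Real.log_le_log hN1 h3
    rw [Real.log_mul (by positivity) (by positivity), Real.log_mul (by positivity) (by positivity),
      Real.log_pow] at h4
    have h5 : Real.log (2 * Cu) / N + 2 * (Real.log N / N) + Real.log ((d : ℝ) ^ N * V 3 N) / N =
        (Real.log (2 * Cu) + 2 * Real.log N + Real.log ((d : ℝ) ^ N * V 3 N)) / N := by
      ring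
    rw [h5]
    apply div_le_div_of_nonneg_right _ (by linarith)
    push_cast at h4
    exact h4

/-- **No superattracting parameters below the critical scale.** -/
theorem none {d : ℕ} (hd : 2 ≤ d) {χ : ℝ} {c₀ : ℂ} (h : Lyap d χ c₀) {s : ℝ} (hsχ : χ < s) :
    ∀ᶠ N : ℕ in atTop, num d c₀ N (Real.exp (-s * N)) = 0 := by
  have hχ : 0 < χ := h.1
  obtain ⟨K, hK, H⟩ := far hd h (ε := (s - χ) / 6) (by linarith)
  have h1 : Tendsto (fun N : ℕ => K * Real.exp ((s - χ) / 2 * N)) atTop atTop := by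
    apply Tendsto.const_mul_atTop hK
    apply Real.tendsto_exp_atTop.comp
    exact tendsto_natCast_atTop_atTop.const_mul_atTop (by linarith)
  filter_upwards [h1.eventually (eventually_gt_atTop 1)] with N hN
  have h2 : {c : ℂ | Cn d N c ∧ ‖c - c₀‖ ≤ Real.exp (-s * N)} = ∅ := by
    rw [Set.eq_empty_iff_forall_notMem]
    rintro c ⟨⟨p, hp1, hp2, hp3⟩, h3⟩
    have h4 := H p hp1 c hp3
    have h5 : K * Real.exp (-(χ + 3 * ((s - χ) / 6)) * N) ≤ ‖c - c₀‖ := by
      refine le_trans ?_ h4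
      gcongr K * Real.exp ?_
      have h6 : (p : ℝ) ≤ N := by exact_mod_cast hp2
      nlinarith
    have h6 : Real.exp (-s * N) < K * Real.exp (-(χ + 3 * ((s - χ) / 6)) * N) := by
      have e : K * Real.exp (-(χ + 3 * ((s - χ) / 6)) * N) =
          K * Real.exp ((s - χ) / 2 * N) * Real.exp (-s * N) := by
        rw [mul_assoc, ← Real.exp_add]
        congr 2
        ring
      rw [e]
      have := Real.exp_pos (-s * N)
      nlinarith
    linarith
  unfold num
  rw [h2, Set.ncard_empty]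

end Pool.Agent.Q186.Loc
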