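import Pool.Agent.Q186.Loc.Three

/-!
# The number of superattracting parameters in a disc: the lower bound
-/

set_option autoImplicit false

open Complex Metric Set Filter Topology MeasureTheory N62a1eb23

namespace Pool.Agent.Q186.Loc

open Pool.Agent.H712R2 (P P_zero P_one P_succ mem_multibrot_iff)
open Pool.Agent.H713R2
open Pool.Agent.Q186.Cen
open Pool.Agent.Y736.HD (Ang vol_Ang_ne)
open Pool.Agent.Y736.HG (vol_le)

/-- Landing points are boundary points. -/
theorem land_frontier {d : ℕ} (hd : 2 ≤ d) {ψ : ℂ → ℂ} (hψ : IsExteriorMap (multibrotSet d) ψ)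
    {θ : ℝ} {ζ : ℂ} (h : Tendsto (fun ρ : ℝ => ψ (ρ * exp (θ * I))) (𝓝[>] 1) (𝓝 ζ)) :
    ζ ∈ frontier (multibrotSet d) := by
  have hw : ∀ ρ : ℝ, 1 < ρ → ‖(ρ : ℂ) * exp (θ * I)‖ = ρ := by
    intro ρ hρ
    rw [norm_mul, Complex.norm_exp_ofReal_mul_I, mul_one, Complex.norm_real,
      Real.norm_of_nonneg (by linarith)]
  have hmem : ζ ∈ multibrotSet d := by
    rw [mem_multibrot_iff hd]
    intro k
    rcases Nat.eq_zero_or_pos k with hk | hk
    · rw [hk, P_zero, norm_zero]; norm_num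
    obtain ⟨m, rfl⟩ := Nat.exists_eq_add_of_le' hk
    have h1 : Tendsto (fun ρ : ℝ => ‖P d (m + 1) (ψ (ρ * exp (θ * I)))‖) (𝓝[>] 1)
        (𝓝 ‖P d (m + 1) ζ‖) :=
      ((differentiable_P d (m + 1)).continuous.norm.tendsto ζ).comp h
    have h2 : Tendsto (fun ρ : ℝ => 2 * ρ ^ (d ^ m)) (𝓝[>] 1) (𝓝 (2 * 1 ^ (d ^ m))) := by
      have : Continuous fun ρ : ℝ => 2 * ρ ^ (d ^ m) := by fun_prop
      exact (this.tendsto 1).mono_left nhdsWithin_le_nhds
    rw [one_pow, mul_one] at h2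
    refine le_of_tendsto_of_tendsto h1 h2 ?_
    filter_upwards [self_mem_nhdsWithin] with ρ hρ
    have hρ' : 1 < ρ := hρ
    have h3 := Pool.Agent.W677.MC.P_le_two hd hψ (z := (ρ : ℂ) * exp (θ * I))
      (by rw [hw ρ hρ']; exact hρ') m
    rwa [hw ρ hρ'] at h3
  refine ⟨subset_closure hmem, ?_⟩
  intro hint
  have h1 := h.eventually (isOpen_interior.mem_nhds hint)
  obtain ⟨ρ, h2, h3⟩ := (h1.and (self_mem_nhdsWithin : ∀ᶠ ρ : ℝ in 𝓝[>] 1, ρ ∈ Ioi 1)).exists
  have h4 : ψ (ρ * exp (θ * I)) ∈ ψ '' {z | 1 < ‖z‖} := by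
    apply mem_image_of_mem
    show 1 < ‖(ρ : ℂ) * exp (θ * I)‖
    rw [hw ρ h3]
    exact h3
  rw [hψ.image] at h4
  exact h4 (interior_subset h2)

/-- The distance to the superattracting parameters of period at most `N`. -/
noncomputable def tt (d N : ℕ) (c : ℂ) : ℝ := infDist c {a | Cn d N a}

theorem exists_nearest {d : ℕ} (hd : 2 ≤ d) {N : ℕ} (hN : 1 ≤ N) (c : ℂ) :
    ∃ a, Cn d N a ∧ ‖a - c‖ = tt d N c := by
  obtain ⟨a, ha, hdist⟩ := (isClosed_Cn d N).exists_infDist_eq_dist ⟨0, cn_zero hd hN⟩ c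
  exact ⟨a, ha, by unfold tt; rw [hdist, dist_comm, dist_eq_norm]⟩

/-- the constant -/
noncomputable def C1 (d : ℕ) : ℝ := 2 * Real.pi * CE d 1 / Real.log 2

theorem C1_pos (d : ℕ) : 0 < C1 d := by
  unfold C1
  have hlog2 : 0 < Real.log 2 := Real.log_pos (by norm_num)
  have hpi := Real.pi_pos
  have := CE_pos (d := d) one_pos
  positivity

/-- **Discs without superattracting parameters have small harmonic measure.** -/
theorem vol_small {d : ℕ} (hd : 2 ≤ d) {ψ : ℂ → ℂ} (hψ : IsExteriorMap (multibrotSet d) ψ)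
    {c : ℂ} (hc : c ∈ frontier (multibrotSet d)) {N : ℕ} (hN : 1 ≤ N) :
    volume (Ang ψ c (tt d N c / 4)) ≤ ENNReal.ofReal (C1 d / (d : ℝ) ^ N) := by
  have hdR : (2 : ℝ) ≤ d := by exact_mod_cast hd
  have hM := frontier_mem hd hc
  have hL := LL_ge hd
  have hCE := CE_pos (d := d) one_pos
  have hdN : (0 : ℝ) < (d : ℝ) ^ N := by positivity
  obtain ⟨a, ha, hat⟩ := exists_nearest hd hN c
  have ht0 : 0 < tt d N c := by
    have h1 := sep hd hc ha
    rw [hat] at h1
    refine lt_of_lt_of_le ?_ h1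
    have : 0 < LL d ^ (2 * N) := by
      have : 0 < LL d := by linarith
      positivity
    positivity
  have hb := (mem_multibrot_iff hd c).1 hM 1
  rw [P_one hd] at hb
  have ht2 : tt d N c ≤ 2 := by
    have h1 := infDist_le_dist_of_mem (x := c) (show (0 : ℂ) ∈ {a | Cn d N a} from cn_zero hd hN)
    rw [dist_zero_right] at h1
    exact h1.trans hb
  have h1 := vol_le hd hψ hM (r := tt d N c / 4) (S := CE d 1 / (d : ℝ) ^ N) (by linarith)
    (by positivity) (fun w hw hwr => by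
      by_contra hcon
      rw [not_le, div_lt_iff₀ hdN] at hcon
      have hwr' : ‖ψ w - c‖ * (1 + 1) ≤ tt d N c := by linarith
      obtain ⟨c', h2, h3⟩ := key hd one_pos (x := c) (c₁ := c) (c₂ := ψ w) (R := tt d N c) ht0
        (by rw [sub_self, norm_zero]; linarith) hwr' (Or.inl rfl) hM (frontier_ge hd hc)
        (by
          have h4 := norm_add_le (ψ w - c) c
          rw [sub_add_cancel] at h4
          unfold R1
          linarith) (rate_psi hd hψ hw) hN hcon.le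
      have h4 := infDist_le_dist_of_mem (x := c) (show c' ∈ {a | Cn d N a} from h3)
      rw [mem_ball, dist_comm] at h2
      have h5 : tt d N c = infDist c {a | Cn d N a} := rfl
      linarith)
  rw [ENNReal.le_ofReal_iff_toReal_le (vol_Ang_ne _ _ _) (by have := C1_pos d; positivity)]
  refine h1.trans (le_of_eq ?_)
  unfold C1
  ring

theorem Ang_mono {ψ : ℂ → ℂ} {b c : ℂ} {r s : ℝ} (h : ball b r ⊆ ball c s) :
    Ang ψ b r ⊆ Ang ψ c s := by
  rintro θ ⟨h1, ζ, h2, h3⟩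
  exact ⟨h1, ζ, h h2, h3⟩

/-- A finite covering of the unit disc. -/
theorem exists_cover : ∃ B : Finset ℂ, closedBall (0 : ℂ) 1 ⊆ ⋃ b ∈ B, ball b (1 / 16) := by
  obtain ⟨t, ht, h1⟩ := (isCompact_closedBall (0 : ℂ) 1).finite_cover_balls
    (show (0 : ℝ) < 1 / 16 by norm_num)
  obtain ⟨h2, h3⟩ := h1
  refine ⟨h2.toFinset, h3.trans ?_⟩
  intro x hx
  simpa using hx

/-- **The lower bound.** -/
theorem lower {d : ℕ} (hd : 2 ≤ d) : ∃ C : ℝ, 0 < C ∧ ∀ ψ : ℂ → ℂ,
    IsExteriorMap (multibrotSet d) ψ → ∀ c₀ ∈ frontier (multibrotSet d), ∀ r : ℝ, 0 < r → r ≤ 1 →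
      ∀ N : ℕ, 1 ≤ N → (d : ℝ) ^ N * (volume (Ang ψ c₀ (r / 16))).toReal ≤
        C * (N * (num d c₀ N r + 1)) := by
  have hL := LL_ge hd
  have hL0 : 0 < LL d := by linarith
  have hC1 := C1_pos d
  have hdR : (2 : ℝ) ≤ d := by exact_mod_cast hd
  obtain ⟨B, hB⟩ := exists_cover
  obtain ⟨M, hM⟩ : ∃ M : ℕ, LL d ≤ 2 ^ M := by
    obtain ⟨M, hM⟩ := pow_unbounded_of_one_lt (LL d) (show (1 : ℝ) < 2 by norm_num)
    exact ⟨M, hM.le⟩
  refine ⟨C1 d * (1 + B.card * (3 + 2 * M)), by positivity, ?_⟩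
  intro ψ hψ c₀ hc₀ r hr hr1 N hN
  have hNR : (1 : ℝ) ≤ N := by exact_mod_cast hN
  have hdN : (0 : ℝ) < (d : ℝ) ^ N := by positivity
  have hnum : (0 : ℝ) ≤ num d c₀ N r := Nat.cast_nonneg _
  by_cases hcase : ∃ c ∈ frontier (multibrotSet d), c ∈ ball c₀ (r / 16) ∧ r / 2 ≤ tt d N c
  · obtain ⟨c, hc, hcb, hct⟩ := hcase
    have h1 : volume (Ang ψ c₀ (r / 16)) ≤ ENNReal.ofReal (C1 d / (d : ℝ) ^ N) := by
      refine (measure_mono (Ang_mono ?_)).trans (vol_small hd hψ hc hN)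
      intro x hx
      rw [mem_ball] at hx hcb ⊢
      have h2 := dist_triangle x c₀ c
      rw [dist_comm c₀ c] at h2
      linarith
    rw [ENNReal.le_ofReal_iff_toReal_le (vol_Ang_ne _ _ _) (by positivity),
      le_div_iff₀ hdN] at h1
    have h2 : (1 : ℝ) ≤ N * (num d c₀ N r + 1) := by nlinarith
    have h3 : (0 : ℝ) ≤ B.card * (3 + 2 * M) := by positivity
    calc (d : ℝ) ^ N * (volume (Ang ψ c₀ (r / 16))).toReal ≤ C1 d * (1 + 0) * 1 := by linarith
      _ ≤ C1 d * (1 + B.card * (3 + 2 * M)) * (N * (num d c₀ N r + 1)) := by gcongr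
  · have hcase' : ∀ c ∈ frontier (multibrotSet d), c ∈ ball c₀ (r / 16) → tt d N c < r / 2 := by
      intro c hc hcb
      by_contra hcon
      exact hcase ⟨c, hc, hcb, not_lt.1 hcon⟩
    obtain ⟨F, hF⟩ : ∃ F : Finset ℂ, F = (finite_num d N c₀ r).toFinset := ⟨_, rfl⟩
    have hFc : F.card = num d c₀ N r := by
      rw [hF]
      unfold num
      rw [Set.ncard_eq_toFinset_card _ (finite_num d N c₀ r)]
    obtain ⟨J, hJ⟩ : ∃ J : ℕ, J = 3 + 2 * M * N := ⟨_, rfl⟩
    obtain ⟨E, hE⟩ : ∃ E : ℂ × ℕ × ℂ → Set ℝ, E = fun x => {θ | θ ∈ Ioc 0 (2 * Real.pi) ∧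
        ∃ ζ ∈ ball (x.1 + (((1 / 2 : ℝ) ^ x.2.1 * r : ℝ) : ℂ) * x.2.2 : ℂ) ((1 / 2 : ℝ) ^ x.2.1 * r / 16),
        Tendsto (fun ρ : ℝ => ψ (ρ * exp (θ * I))) (𝓝[>] 1) (𝓝 ζ) ∧
        (1 / 2 : ℝ) ^ (x.2.1 + 1) * r ≤ tt d N ζ} := ⟨_, rfl⟩
    have hEvol : ∀ x, volume (E x) ≤ ENNReal.ofReal (C1 d / (d : ℝ) ^ N) := by
      intro x
      rcases (E x).eq_empty_or_nonempty with h1 | h1
      · rw [h1, measure_empty]
        exact bot_le
      · obtain ⟨θ', hθ'⟩ := h1
        rw [hE] at hθ'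
        obtain ⟨-, ζ', h2, h3, h4⟩ := hθ'
        refine (measure_mono ?_).trans (vol_small hd hψ (land_frontier hd hψ h3) hN)
        intro θ hθ
        rw [hE] at hθ
        obtain ⟨h5, ζ, h6, h7, -⟩ := hθ
        refine ⟨h5, ζ, ?_, h7⟩
        rw [mem_ball] at h2 h6 ⊢
        have h8 := dist_triangle_right ζ ζ' (x.1 + (((1 / 2 : ℝ) ^ x.2.1 * r : ℝ) : ℂ) * x.2.2)
        rw [pow_succ] at h4
        linarith
    have hcov : Ang ψ c₀ (r / 16) ⊆ ⋃ x ∈ (F ×ˢ Finset.range J ×ˢ B), E x := by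
      rintro θ ⟨h1, ζ, h2, h3⟩
      have hζ := land_frontier hd hψ h3
      obtain ⟨a, ha, hat⟩ := exists_nearest hd hN ζ
      have ht := hcase' ζ hζ h2
      have hsep := sep hd hζ ha
      rw [hat] at hsep
      have hLN : 0 < LL d ^ (2 * N) := by positivity
      have ht0 : 0 < tt d N ζ := lt_of_lt_of_le (by positivity) hsep
      obtain ⟨j, hj1, hj2⟩ := exists_nat_pow_near_of_lt_one (x := tt d N ζ / r) (y := (1 / 2 : ℝ))
        (by positivity) (by rw [div_le_one hr]; linarith) (by norm_num) (by norm_num)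
      rw [lt_div_iff₀ hr] at hj1
      rw [div_le_iff₀ hr] at hj2
      have hs0 : 0 < (1 / 2 : ℝ) ^ j * r := by positivity
      obtain ⟨s, hs⟩ : ∃ s : ℝ, s = (1 / 2 : ℝ) ^ j * r := ⟨_, rfl⟩
      rw [← hs] at hj2 hs0
      have hsc : (s : ℂ) ≠ 0 := by exact_mod_cast hs0.ne'
      have hmem : (ζ - a) / s ∈ closedBall (0 : ℂ) 1 := by
        rw [mem_closedBall_zero_iff, norm_div, Complex.norm_real, Real.norm_of_nonneg hs0.le,
          div_le_one hs0, norm_sub_rev, hat]
        exact hj2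
      obtain ⟨b, hb, hb2⟩ := mem_iUnion₂.1 (hB hmem)
      rw [mem_iUnion₂]
      refine ⟨(a, j, b), ?_, ?_⟩
      · simp only [Finset.mem_product, Finset.mem_range]
        refine ⟨?_, ?_, hb⟩
        · rw [hF, Set.Finite.mem_toFinset]
          refine ⟨ha, ?_⟩
          have h4 := norm_add_le (a - ζ) (ζ - c₀)
          rw [sub_add_sub_cancel, hat] at h4
          rw [mem_ball, dist_eq_norm] at h2
          linarith
        · rw [hJ]
          by_contra hcon
          rw [not_lt] at hcon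
          have h4 : s ≤ (1 / 2 : ℝ) ^ (3 + 2 * M * N) := by
            rw [hs]
            calc (1 / 2 : ℝ) ^ j * r ≤ (1 / 2 : ℝ) ^ (3 + 2 * M * N) * 1 := by
                  apply mul_le_mul _ hr1 hr.le (by positivity)
                  exact pow_le_pow_of_le_one (by norm_num) (by norm_num) hcon
              _ = _ := mul_one _
          have h5 : LL d ^ (2 * N) ≤ (2 : ℝ) ^ (2 * M * N) := by
            calc LL d ^ (2 * N) ≤ ((2 : ℝ) ^ M) ^ (2 * N) := by gcongr
              _ = _ := by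
                rw [← pow_mul]
                congr 1
                ring
          have h6 : (1 / 2 : ℝ) ^ (3 + 2 * M * N) = 1 / (8 * 2 ^ (2 * M * N)) := by
            rw [pow_add, one_div_pow, one_div_pow]
            norm_num
            ring
          have h7 : 1 / (4 * LL d ^ (2 * N)) ≤ 1 / (8 * 2 ^ (2 * M * N)) := by
            rw [← h6]
            linarith
          rw [div_le_div_iff₀ (by positivity) (by positivity)] at h7
          have h8 : (0 : ℝ) < 2 ^ (2 * M * N) := by positivity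
          linarith
      · rw [hE]
        refine ⟨h1, ζ, ?_, h3, ?_⟩
        · show ζ ∈ ball (a + (((1 / 2 : ℝ) ^ j * r : ℝ) : ℂ) * b) ((1 / 2 : ℝ) ^ j * r / 16)
          rw [← hs, mem_ball, dist_eq_norm]
          rw [mem_ball, dist_eq_norm] at hb2
          have e : ζ - (a + s * b) = s * ((ζ - a) / s - b) := by
            field_simp
            ring
          rw [e, norm_mul, Complex.norm_real, Real.norm_of_nonneg hs0.le]
          calc s * ‖(ζ - a) / s - b‖ < s * (1 / 16) := by gcongr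
            _ = _ := by ring
        · exact hj1.le
    have hle : volume (Ang ψ c₀ (r / 16)) ≤
        ENNReal.ofReal ((F ×ˢ Finset.range J ×ˢ B).card * (C1 d / (d : ℝ) ^ N)) := by
      refine (measure_mono hcov).trans ((measure_biUnion_finset_le _ _).trans ?_)
      refine (Finset.sum_le_sum fun x _ => hEvol x).trans ?_
      rw [Finset.sum_const, nsmul_eq_mul, ENNReal.ofReal_mul (Nat.cast_nonneg _),
        ENNReal.ofReal_natCast]
    rw [ENNReal.le_ofReal_iff_toReal_le (vol_Ang_ne _ _ _) (by positivity)] at hle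
    rw [Finset.card_product, Finset.card_product, Finset.card_range, hFc, hJ] at hle
    have h1 : (d : ℝ) ^ N * (volume (Ang ψ c₀ (r / 16))).toReal ≤
        ((num d c₀ N r * ((3 + 2 * M * N) * B.card) : ℕ) : ℝ) * C1 d := by
      calc (d : ℝ) ^ N * (volume (Ang ψ c₀ (r / 16))).toReal ≤ (d : ℝ) ^ N *
            (((num d c₀ N r * ((3 + 2 * M * N) * B.card) : ℕ) : ℝ) * (C1 d / (d : ℝ) ^ N)) := by
            gcongr
        _ = _ := by
            field_simp
    refine h1.trans ?_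
    push_cast
    have h2 : (3 : ℝ) + 2 * M * N ≤ (3 + 2 * M) * N := by nlinarith
    calc (num d c₀ N r : ℝ) * ((3 + 2 * M * N) * B.card) * C1 d
        ≤ (num d c₀ N r + 1) * (((3 + 2 * M) * N) * B.card) * C1 d := by
          gcongr
          linarith
      _ = C1 d * (B.card * (3 + 2 * M)) * (N * (num d c₀ N r + 1)) := by ring
      _ ≤ _ := by
          gcongr
          linarith

end Pool.Agent.Q186.Loc
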