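import Pool.Agent.Q186.Cen.Lyap
import Pool.Agent.Q186.Cen.Poly

/-!
# Superattracting parameters near boundary parameters: elementary estimates
-/

set_option autoImplicit false

open Complex Metric Set Filter Topology N62a1eb23

namespace Pool.Agent.Q186.Loc

open Pool.Agent.H712R2 (P P_zero P_one P_succ mem_multibrot_iff esc_of_gt esc_mono)
open Pool.Agent.H713R2
open Pool.Agent.Q186.Cen

/-- A Lipschitz constant. -/
noncomputable def LL (d : ℕ) : ℝ := d * 3 ^ d + 1

theorem LL_ge {d : ℕ} (hd : 2 ≤ d) : 4 ≤ LL d := by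
  unfold LL
  have h1 : (2 : ℝ) ≤ d := by exact_mod_cast hd
  have h2 : (3 : ℝ) ^ 1 ≤ 3 ^ d := pow_le_pow_right₀ (by norm_num) (by omega)
  nlinarith

theorem LL_mul {d : ℕ} {x z : ℂ} (hd : 2 ≤ d) (hx : ‖x‖ ≤ 3) (hz : ‖z‖ ≤ 3) :
    ‖x ^ d - z ^ d‖ ≤ (LL d - 1) * ‖x - z‖ := by
  refine (pow_diff (d := d) (by omega) hx hz).trans ?_
  unfold LL
  have h2 : (3 : ℝ) ^ (d - 1) ≤ 3 ^ d := pow_le_pow_right₀ (by norm_num) (by omega)
  have h3 : (d : ℝ) * 3 ^ (d - 1) ≤ d * 3 ^ d := mul_le_mul_of_nonneg_left h2 (Nat.cast_nonneg d)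
  have h4 : (d : ℝ) * 3 ^ d + 1 - 1 = d * 3 ^ d := by ring
  rw [h4]
  exact mul_le_mul_of_nonneg_right h3 (norm_nonneg _)

theorem orbit_le {d : ℕ} (hd : 2 ≤ d) {c : ℂ} {k : ℕ} (hk : ‖P d k c‖ ≤ 2) {j : ℕ}
    (hjk : j ≤ k) : ‖P d j c‖ ≤ 2 := by
  by_contra h
  rw [not_le] at h
  have hj1 : 1 ≤ j := by
    by_contra h1
    have : j = 0 := by omega
    subst this
    rw [P_zero, norm_zero] at h
    linarith
  obtain ⟨i, rfl⟩ := Nat.exists_eq_add_of_le hjk
  have h1 := esc_mono hd h (esc_of_gt hd hj1 h) i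
  linarith

/-- Orbits starting close to the critical point. -/
theorem close_orbit {d : ℕ} (hd : 2 ≤ d) {c z : ℂ} {k : ℕ} (hk : ‖P d k c‖ ≤ 2)
    (hz : ‖z‖ ≤ 1 / (2 * LL d ^ k)) : ∀ j, 1 ≤ j → j ≤ k →
      ‖(fun z : ℂ => z ^ d + c)^[j] z - P d j c‖ ≤ LL d ^ (j - 1) * (1 / (2 * LL d ^ k)) ^ 2 := by
  have hL := LL_ge hd
  have hL0 : 0 < LL d := by linarith
  have hLk : 1 ≤ LL d ^ k := one_le_pow₀ (by linarith)
  have hρ1 : 1 / (2 * LL d ^ k) ≤ 1 := by
    rw [div_le_one (by positivity)]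
    linarith
  intro j hj1
  induction j, hj1 using Nat.le_induction with
  | base =>
    intro _
    simp only [Function.iterate_one, Nat.sub_self, pow_zero, one_mul]
    rw [P_one hd]
    have e : z ^ d + c - c = z ^ d := by ring
    rw [e, norm_pow]
    calc ‖z‖ ^ d ≤ ‖z‖ ^ 2 := pow_le_pow_of_le_one (norm_nonneg _) (hz.trans hρ1) hd
      _ ≤ _ := by gcongr
  | succ j hj ih =>
    intro hjk
    have h1 := ih (by omega)
    have h2 : LL d ^ (j - 1) * (1 / (2 * LL d ^ k)) ^ 2 ≤ 1 := by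
      have h3 : LL d ^ (j - 1) ≤ LL d ^ k := pow_le_pow_right₀ (by linarith) (by omega)
      calc LL d ^ (j - 1) * (1 / (2 * LL d ^ k)) ^ 2 ≤ LL d ^ k * (1 / (2 * LL d ^ k)) ^ 2 := by
            gcongr
        _ = 1 / (4 * LL d ^ k) := by
            field_simp
            ring
        _ ≤ 1 := by
            rw [div_le_one (by positivity)]
            linarith
    have h3 := orbit_le hd hk (j := j) (by omega)
    have h4 : ‖(fun z : ℂ => z ^ d + c)^[j] z‖ ≤ 3 := by
      have h5 := norm_add_le ((fun z : ℂ => z ^ d + c)^[j] z - P d j c) (P d j c)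
      rw [sub_add_cancel] at h5
      linarith
    rw [Function.iterate_succ_apply', P_succ]
    have e : ((fun z : ℂ => z ^ d + c)^[j] z) ^ d + c - (P d j c ^ d + c) =
      ((fun z : ℂ => z ^ d + c)^[j] z) ^ d - P d j c ^ d := by ring
    rw [e]
    refine (LL_mul hd h4 (h3.trans (by norm_num))).trans ?_
    have e2 : j + 1 - 1 = (j - 1) + 1 := by omega
    rw [e2, pow_succ]
    calc (LL d - 1) * ‖(fun z : ℂ => z ^ d + c)^[j] z - P d j c‖
        ≤ LL d * (LL d ^ (j - 1) * (1 / (2 * LL d ^ k)) ^ 2) := by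
          apply mul_le_mul (by linarith) h1 (norm_nonneg _) hL0.le
      _ = _ := by ring

theorem iter_add {d : ℕ} (c : ℂ) (m j : ℕ) :
    (fun z : ℂ => z ^ d + c)^[j] (P d m c) = P d (m + j) c := by
  induction j with
  | zero => rfl
  | succ j ih => rw [Function.iterate_succ_apply', ih, ← add_assoc, P_succ]

/-- **A small critical value of an iterate gives an attracting cycle.** -/
theorem small_mem {d : ℕ} (hd : 2 ≤ d) {c : ℂ} {k : ℕ} (hk1 : 1 ≤ k)
    (hk : ‖P d k c‖ < 1 / (4 * LL d ^ k)) : c ∈ multibrotSet d := by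
  have hL := LL_ge hd
  have hL0 : 0 < LL d := by linarith
  have hLk : 1 ≤ LL d ^ k := one_le_pow₀ (by linarith)
  have hk2 : ‖P d k c‖ ≤ 2 := by
    refine hk.le.trans ?_
    rw [div_le_iff₀ (by positivity)]
    linarith
  have hn : ∀ n : ℕ, ‖P d (n * k) c‖ ≤ 1 / (2 * LL d ^ k) := by
    intro n
    induction n with
    | zero =>
      rw [zero_mul, P_zero, norm_zero]
      positivity
    | succ n ih =>
      rw [add_mul, one_mul, ← iter_add]
      have h1 := close_orbit hd hk2 ih k hk1 le_rfl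
      have h2 := norm_add_le ((fun z : ℂ => z ^ d + c)^[k] (P d (n * k) c) - P d k c) (P d k c)
      rw [sub_add_cancel] at h2
      have h3 : LL d ^ (k - 1) * (1 / (2 * LL d ^ k)) ^ 2 ≤ 1 / (4 * LL d ^ k) := by
        have h4 : LL d ^ (k - 1) ≤ LL d ^ k := pow_le_pow_right₀ (by linarith) (by omega)
        calc LL d ^ (k - 1) * (1 / (2 * LL d ^ k)) ^ 2 ≤ LL d ^ k * (1 / (2 * LL d ^ k)) ^ 2 := by
              gcongr
          _ = 1 / (4 * LL d ^ k) := by
              field_simp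
              ring
      have h5 : 1 / (2 * LL d ^ k) = 1 / (4 * LL d ^ k) + 1 / (4 * LL d ^ k) := by
        field_simp
        ring
      linarith
  rw [mem_multibrot_iff hd]
  intro j
  refine orbit_le hd (k := j * k) ((hn j).trans ?_) (Nat.le_mul_of_pos_right j (by omega))
  rw [div_le_iff₀ (by positivity)]
  linarith

/-- **Lower bound of the critical orbit at boundary parameters.** -/
theorem low_orbit {d : ℕ} (hd : 2 ≤ d) {c : ℂ} (hc : c ∈ frontier (multibrotSet d)) {k : ℕ}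
    (hk1 : 1 ≤ k) : 1 / (4 * LL d ^ k) ≤ ‖P d k c‖ := by
  by_contra h
  rw [not_le] at h
  have h1 : {c | ‖P d k c‖ < 1 / (4 * LL d ^ k)} ⊆ multibrotSet d := fun c' hc' =>
    small_mem hd hk1 hc'
  have h2 : IsOpen {c | ‖P d k c‖ < 1 / (4 * LL d ^ k)} :=
    isOpen_lt (differentiable_P d k).continuous.norm continuous_const
  have h3 : c ∈ interior (multibrotSet d) := interior_maximal h1 h2 h
  exact hc.2 h3

/-- Parameters close to a parameter of the Multibrot set. -/
theorem near {d : ℕ} (hd : 2 ≤ d) {c₀ z : ℂ} (hc₀ : c₀ ∈ multibrotSet d) {N : ℕ} {δ : ℝ}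
    (hz : ‖z - c₀‖ ≤ δ) (hδ : LL d ^ N * δ ≤ 1) : ∀ k ≤ N, ‖P d k z - P d k c₀‖ ≤ LL d ^ k * δ := by
  have hL := LL_ge hd
  have hL0 : 0 < LL d := by linarith
  have hδ0 : 0 ≤ δ := (norm_nonneg _).trans hz
  have hb := (mem_multibrot_iff hd c₀).1 hc₀
  intro k
  induction k with
  | zero =>
    intro _
    rw [P_zero, P_zero, sub_self, norm_zero]
    positivity
  | succ k ih =>
    intro hk
    have h1 := ih (by omega)
    have h2 : LL d ^ k * δ ≤ 1 := by
      refine le_trans ?_ hδ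
      gcongr
      · linarith
      · omega
    have h3 : ‖P d k z‖ ≤ 3 := by
      have h5 := norm_add_le (P d k z - P d k c₀) (P d k c₀)
      rw [sub_add_cancel] at h5
      linarith [hb k]
    rw [P_succ, P_succ]
    have e : P d k z ^ d + z - (P d k c₀ ^ d + c₀) = (P d k z ^ d - P d k c₀ ^ d) + (z - c₀) := by
      ring
    rw [e]
    refine (norm_add_le _ _).trans ?_
    have h4 := LL_mul hd h3 ((hb k).trans (by norm_num))
    have h5 : (LL d - 1) * ‖P d k z - P d k c₀‖ ≤ (LL d - 1) * (LL d ^ k * δ) :=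
      mul_le_mul_of_nonneg_left h1 (by linarith)
    have h6 : δ ≤ LL d ^ k * δ := by
      have : 1 ≤ LL d ^ k := one_le_pow₀ (by linarith)
      nlinarith
    rw [pow_succ]
    nlinarith

theorem frontier_mem {d : ℕ} (hd : 2 ≤ d) {c : ℂ} (hc : c ∈ frontier (multibrotSet d)) :
    c ∈ multibrotSet d := (isCompact_M hd).isClosed.frontier_subset hc

theorem frontier_ge {d : ℕ} (hd : 2 ≤ d) {c : ℂ} (hc : c ∈ frontier (multibrotSet d)) :
    1 / 16 ≤ ‖c‖ := by
  by_contra h
  rw [not_le] at h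
  have h1 : ball (0 : ℂ) (1 / 16) ⊆ multibrotSet d := by
    intro z hz
    rw [mem_ball_zero_iff] at hz
    exact quarter hd (by linarith)
  have h3 : c ∈ interior (multibrotSet d) :=
    interior_maximal h1 isOpen_ball (by rwa [mem_ball_zero_iff])
  exact hc.2 h3

/-- **Superattracting parameters are not too close to boundary parameters.** -/
theorem sep {d : ℕ} (hd : 2 ≤ d) {c a : ℂ} (hc : c ∈ frontier (multibrotSet d)) {N : ℕ}
    (ha : Cn d N a) : 1 / (4 * LL d ^ (2 * N)) ≤ ‖a - c‖ := by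
  have hL := LL_ge hd
  have hL0 : 0 < LL d := by linarith
  have hLN : 1 ≤ LL d ^ N := one_le_pow₀ (by linarith)
  by_contra h
  rw [not_le] at h
  obtain ⟨p, hp1, hpN, hp⟩ := ha
  have h1 : LL d ^ N * (1 / (4 * LL d ^ (2 * N))) ≤ 1 := by
    rw [two_mul, pow_add]
    have : LL d ^ N * (1 / (4 * (LL d ^ N * LL d ^ N))) = 1 / (4 * LL d ^ N) := by
      field_simp
    rw [this, div_le_one (by positivity)]
    linarith
  have h2 : LL d ^ N * ‖a - c‖ ≤ 1 := by
    refine le_trans ?_ h1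
    gcongr
  have h3 := near hd (frontier_mem hd hc) le_rfl h2 p hpN
  rw [hp, zero_sub, norm_neg] at h3
  have h4 := low_orbit hd hc hp1
  have h5 : LL d ^ p * ‖a - c‖ < 1 / (4 * LL d ^ p) := by
    calc LL d ^ p * ‖a - c‖ < LL d ^ p * (1 / (4 * LL d ^ (2 * N))) := by gcongr
      _ ≤ LL d ^ p * (1 / (4 * LL d ^ (2 * p))) := by
          gcongr
          linarith
      _ = _ := by
          rw [two_mul, pow_add]
          field_simp
  linarith

/-- The escape rate very close to a parameter of the Multibrot set. -/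
theorem rate_near {d : ℕ} (hd : 2 ≤ d) {ψ : ℂ → ℂ} (hψ : IsExteriorMap (multibrotSet d) ψ)
    {c₀ : ℂ} (hc₀ : c₀ ∈ multibrotSet d) {n : ℕ} {w : ℂ} (hw : 1 < ‖w‖)
    (h : ‖ψ w - c₀‖ ≤ 1 / LL d ^ (n + 1)) : Real.log ‖w‖ ≤ Real.log 4 / (d : ℝ) ^ n := by
  have hL := LL_ge hd
  have hL0 : 0 < LL d := by linarith
  have hLN : 1 ≤ LL d ^ (n + 1) := one_le_pow₀ (by linarith)
  have hb := (mem_multibrot_iff hd c₀).1 hc₀
  have h1 := near hd hc₀ h (N := n + 1) (by
    rw [mul_one_div_cancel (by positivity)]) (n + 1) le_rfl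
  rw [mul_one_div_cancel (by positivity)] at h1
  have h2 : ‖P d (n + 1) (ψ w)‖ ≤ 3 := by
    have h5 := norm_add_le (P d (n + 1) (ψ w) - P d (n + 1) c₀) (P d (n + 1) c₀)
    rw [sub_add_cancel] at h5
    linarith [hb (n + 1)]
  have h3 : ‖ψ w‖ ≤ 3 := by
    have h5 := norm_add_le (ψ w - c₀) c₀
    rw [sub_add_cancel] at h5
    have h6 := hb 1
    rw [P_one hd] at h6
    have h7 : 1 / LL d ^ (n + 1) ≤ 1 := by
      rw [div_le_one (by positivity)]
      exact hLN
    linarith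
  have h4 := rate_le hd hψ hw (R := 3) (by norm_num) h3 h2
  norm_num at h4 ⊢
  exact h4

end Pool.Agent.Q186.Loc
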