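import Pool.Agent.Q186.Loc.Two

/-!
# The number of superattracting parameters in a disc: the upper bound
-/

set_option autoImplicit false

open Complex Metric Set Filter Topology MeasureTheory N62a1eb23

namespace Pool.Agent.Q186.Loc

open Pool.Agent.H712R2 (P P_zero P_one P_succ mem_multibrot_iff)
open Pool.Agent.H713R2
open Pool.Agent.Q186.Cen
open Pool.Agent.Y736.HD (Ang vol_Ang_ne)

/-- The polynomials in the parameter. -/
noncomputable def PP (d : ℕ) : ℕ → Polynomial ℂ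
  | 0 => 0
  | m + 1 => PP d m ^ d + Polynomial.X

theorem PP_eval (d m : ℕ) (c : ℂ) : (PP d m).eval c = P d m c := by
  induction m with
  | zero => simp [PP, P_zero]
  | succ m ih => simp [PP, P_succ, ih]

theorem P_one_real (d m : ℕ) : ∃ x : ℝ, 0 ≤ x ∧ P d m 1 = x := by
  induction m with
  | zero => exact ⟨0, le_rfl, by simp [P_zero]⟩
  | succ m ih =>
    obtain ⟨x, hx, h⟩ := ih
    refine ⟨x ^ d + 1, by positivity, ?_⟩
    rw [P_succ, h]
    push_cast
    ring

theorem PP_ne (d m : ℕ) : PP d (m + 1) ≠ 0 := by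
  intro h
  have h1 := PP_eval d (m + 1) 1
  rw [h, Polynomial.eval_zero, P_succ] at h1
  obtain ⟨x, hx, hxe⟩ := P_one_real d m
  rw [hxe] at h1
  have h2 : (0 : ℝ) = x ^ d + 1 := by exact_mod_cast h1
  have h3 : 0 ≤ x ^ d := by positivity
  linarith

theorem finite_zero (d m : ℕ) : {c : ℂ | P d (m + 1) c = 0}.Finite := by
  refine (PP d (m + 1)).roots.toFinset.finite_toSet.subset ?_
  intro c hc
  have h1 : P d (m + 1) c = 0 := hc
  rw [Finset.mem_coe, Multiset.mem_toFinset, Polynomial.mem_roots (PP_ne d m),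
    Polynomial.IsRoot.def, PP_eval]
  exact h1

/-- The zeros in a closed disc. -/
noncomputable def ZF (d m : ℕ) (c₀ : ℂ) (r : ℝ) : Finset ℂ :=
  ((finite_zero d m).subset (inter_subset_left (t := {c : ℂ | ‖c - c₀‖ ≤ r}))).toFinset

theorem mem_ZF {d m : ℕ} {c₀ : ℂ} {r : ℝ} {c : ℂ} :
    c ∈ ZF d m c₀ r ↔ P d (m + 1) c = 0 ∧ ‖c - c₀‖ ≤ r := by
  unfold ZF
  rw [Set.Finite.mem_toFinset]
  rfl

theorem finite_Cn (d N : ℕ) : {c : ℂ | Cn d N c}.Finite := by
  have h : {c : ℂ | Cn d N c} ⊆ ⋃ m ∈ Finset.range N, {c : ℂ | P d (m + 1) c = 0} := by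
    rintro c ⟨p, h1, h2, h3⟩
    rw [mem_iUnion₂]
    refine ⟨p - 1, ?_, ?_⟩
    · rw [Finset.mem_range]
      omega
    · show P d (p - 1 + 1) c = 0
      rwa [Nat.sub_add_cancel h1]
  exact (Set.Finite.biUnion (Finset.range N).finite_toSet fun m _ => finite_zero d m).subset h

/-- The number of superattracting parameters of period at most `N` in a closed disc. -/
noncomputable def num (d : ℕ) (c₀ : ℂ) (N : ℕ) (r : ℝ) : ℕ := {c : ℂ | Cn d N c ∧ ‖c - c₀‖ ≤ r}.ncard

theorem finite_num (d N : ℕ) (c₀ : ℂ) (r : ℝ) : {c : ℂ | Cn d N c ∧ ‖c - c₀‖ ≤ r}.Finite :=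
  (finite_Cn d N).subset fun _ h => h.1

theorem num_le_sum (d N : ℕ) (c₀ : ℂ) (r : ℝ) :
    num d c₀ N r ≤ ∑ m ∈ Finset.range N, (ZF d m c₀ r).card := by
  have h : {c : ℂ | Cn d N c ∧ ‖c - c₀‖ ≤ r} ⊆
      (((Finset.range N).biUnion fun m => ZF d m c₀ r : Finset ℂ) : Set ℂ) := by
    rintro c ⟨⟨p, h1, h2, h3⟩, h4⟩
    rw [Finset.mem_coe, Finset.mem_biUnion]
    refine ⟨p - 1, ?_, ?_⟩
    · rw [Finset.mem_range]
      omega
    · rw [mem_ZF, Nat.sub_add_cancel h1]
      exact ⟨h3, h4⟩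
  unfold num
  refine (Set.ncard_le_ncard h (Finset.finite_toSet _)).trans ?_
  rw [Set.ncard_coe_finset]
  exact Finset.card_biUnion_le

theorem geom_le {d : ℕ} (hd : 2 ≤ d) (N : ℕ) : ∑ m ∈ Finset.range N, (d : ℝ) ^ m ≤ (d : ℝ) ^ N := by
  have hdR : (2 : ℝ) ≤ d := by exact_mod_cast hd
  induction N with
  | zero => simp
  | succ N ih =>
    rw [Finset.sum_range_succ, pow_succ]
    have : (0 : ℝ) < (d : ℝ) ^ N := by positivity
    nlinarith

/-- **The upper bound.** -/
theorem upper {d : ℕ} (hd : 2 ≤ d) : ∃ C : ℝ, 0 < C ∧ ∀ ψ : ℂ → ℂ,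
    IsExteriorMap (multibrotSet d) ψ → ∀ c₀ ∈ frontier (multibrotSet d), ∀ r : ℝ, 0 < r → r ≤ 1 →
      ∀ N : ℕ, 1 ≤ N → (num d c₀ N r : ℝ) ≤
        C * (N ^ 2 + N * (d : ℝ) ^ N * (volume (Ang ψ c₀ (3 * r))).toReal) := by
  have hL := LL_ge hd
  have hL0 : 0 < LL d := by linarith
  have hdR : (2 : ℝ) ≤ d := by exact_mod_cast hd
  have hlog2 : 0 < Real.log 2 := Real.log_pos (by norm_num)
  have hlogL : 0 < Real.log (LL d) := Real.log_pos (by linarith)
  have hpi := Real.pi_pos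
  obtain ⟨A, hA⟩ : ∃ A, A = Real.log 2 + Real.log 4 + Real.log 4 + Real.log (LL d) := ⟨_, rfl⟩
  obtain ⟨B, hB⟩ : ∃ B, B = Real.log 8 + 2 * Real.log (LL d) := ⟨_, rfl⟩
  have hlog4 : 0 < Real.log 4 := Real.log_pos (by norm_num)
  have hlog8 : 0 < Real.log 8 := Real.log_pos (by norm_num)
  have hA0 : 0 < A := by rw [hA]; positivity
  have hB0 : 0 < B := by rw [hB]; positivity
  refine ⟨(A + B / (2 * Real.pi)) / Real.log 2, by positivity, ?_⟩
  intro ψ hψ c₀ hc₀ r hr hr1 N hN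
  have hNR : (1 : ℝ) ≤ N := by exact_mod_cast hN
  obtain ⟨V, hV⟩ : ∃ V, V = (volume (Ang ψ c₀ (3 * r))).toReal := ⟨_, rfl⟩
  have hV0 : 0 ≤ V := by rw [hV]; exact ENNReal.toReal_nonneg
  rw [← hV]
  have hM := frontier_mem hd hc₀
  by_cases hsm : r < 1 / (4 * LL d ^ (2 * N))
  · -- no superattracting parameters
    have h1 : {c : ℂ | Cn d N c ∧ ‖c - c₀‖ ≤ r} = ∅ := by
      rw [Set.eq_empty_iff_forall_notMem]
      rintro c ⟨h2, h3⟩
      have h4 := sep hd hc₀ h2
      linarith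
    unfold num
    rw [h1, Set.ncard_empty, Nat.cast_zero]
    positivity
  rw [not_lt] at hsm
  have hLN : 1 ≤ LL d ^ (2 * N) := one_le_pow₀ (by linarith)
  have hρ' : 0 < 1 / (4 * LL d ^ (2 * N)) := by positivity
  have hcard : ∀ m < N, ((ZF d m c₀ r).card : ℝ) * Real.log 2 ≤
      A * N + (d : ℝ) ^ m * (B * N * V / (2 * Real.pi)) := by
    intro m hm
    have hdm : (0 : ℝ) < (d : ℝ) ^ m := by positivity
    have hlow := low_orbit hd hc₀ (k := m + 1) (by omega)
    have hLm : 0 < 1 / (4 * LL d ^ (m + 1)) := by positivity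
    have hP0 : P d (m + 1) c₀ ≠ 0 := by
      rw [← norm_pos_iff]
      linarith
    obtain ⟨n, rfl⟩ := Nat.exists_eq_add_of_le' hN
    have h1 := le_vol_T hd hψ hM hρ' (ρ := 2 * r) (r := 3 * r) (S := Real.log 4 / (d : ℝ) ^ n)
      (T := (Real.log ‖P d (m + 1) c₀‖ + (ZF d m c₀ r).card * Real.log 2 - Real.log 2) /
        (d : ℝ) ^ m) (by linarith) (by linarith) (by positivity)
      (fun w hw hwr => rate_near hd hψ hM hw (hwr.trans (by
        apply one_div_le_one_div_of_le (by positivity)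
        have h2 : LL d ^ (n + 1) ≤ LL d ^ (2 * (n + 1)) := pow_le_pow_right₀ (by linarith) (by omega)
        have h3 : 0 < LL d ^ (2 * (n + 1)) := by positivity
        linarith)))
      (fun β hβ s hs0 hs1 => le_mean_zeros hd hβ hψ hM (by linarith) hs0 hs1 hP0 (ZF d m c₀ r)
        (fun a ha => by
          rw [mem_ZF] at ha
          refine ⟨ha.1, ?_⟩
          have : 2 * r / 2 = r := by ring
          rw [this]
          exact ha.2))
    rw [← hV] at h1
    -- the logarithms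
    have hlogP : -(Real.log 4 + (n + 1) * Real.log (LL d)) ≤ Real.log ‖P d (m + 1) c₀‖ := by
      have h2 := Real.log_le_log hLm hlow
      rw [one_div, Real.log_inv, Real.log_mul (by norm_num) (by positivity), Real.log_pow] at h2
      refine le_trans ?_ h2
      apply neg_le_neg
      have h3 : ((m + 1 : ℕ) : ℝ) ≤ (n : ℝ) + 1 := by
        push_cast
        have : (m : ℝ) ≤ n := by exact_mod_cast (by omega : m ≤ n)
        linarith
      have h4 : ((m + 1 : ℕ) : ℝ) * Real.log (LL d) ≤ ((n : ℝ) + 1) * Real.log (LL d) :=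
        mul_le_mul_of_nonneg_right h3 hlogL.le
      linarith
    have hlogr : Real.log (2 * r / (1 / (4 * LL d ^ (2 * (n + 1))))) ≤ B * ((n : ℝ) + 1) := by
      have h2 : 2 * r / (1 / (4 * LL d ^ (2 * (n + 1)))) ≤ 8 * LL d ^ (2 * (n + 1)) := by
        have h3 : 2 * r / (1 / (4 * LL d ^ (2 * (n + 1)))) = r * (8 * LL d ^ (2 * (n + 1))) := by
          field_simp
          ring
        rw [h3]
        have h4 : 0 < 8 * LL d ^ (2 * (n + 1)) := by positivity
        nlinarith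
      have h3 : 0 < 2 * r / (1 / (4 * LL d ^ (2 * (n + 1)))) := by positivity
      refine (Real.log_le_log h3 h2).trans ?_
      rw [Real.log_mul (by norm_num) (by positivity), Real.log_pow, hB]
      push_cast
      have hn0 : (0 : ℝ) ≤ n := Nat.cast_nonneg n
      nlinarith
    have hSm : (d : ℝ) ^ m * (Real.log 4 / (d : ℝ) ^ n) ≤ Real.log 4 := by
      rw [← mul_div_assoc, div_le_iff₀ (by positivity), mul_comm]
      apply mul_le_mul_of_nonneg_left _ hlog4.le
      exact pow_le_pow_right₀ (by linarith) (by omega)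
    have h2 : Real.log ‖P d (m + 1) c₀‖ + (ZF d m c₀ r).card * Real.log 2 - Real.log 2 ≤
        (d : ℝ) ^ m * (Real.log 4 / (d : ℝ) ^ n) + (d : ℝ) ^ m *
          (B * ((n : ℝ) + 1) * V / (2 * Real.pi)) := by
      have h3 : (Real.log ‖P d (m + 1) c₀‖ + (ZF d m c₀ r).card * Real.log 2 - Real.log 2) /
          (d : ℝ) ^ m ≤ Real.log 4 / (d : ℝ) ^ n + B * ((n : ℝ) + 1) * V / (2 * Real.pi) := by
        have h4 : Real.log (2 * r / (1 / (4 * LL d ^ (2 * (n + 1))))) * V / (2 * Real.pi) ≤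
            B * ((n : ℝ) + 1) * V / (2 * Real.pi) := by gcongr
        linarith
      rw [div_le_iff₀ hdm] at h3
      linarith
    push_cast
    have hn0 : (0 : ℝ) ≤ n := Nat.cast_nonneg n
    have h5 : Real.log 2 + Real.log 4 + Real.log 4 + (n + 1) * Real.log (LL d) ≤ A * (n + 1) := by
      rw [hA]
      nlinarith
    linarith
  have hsum : (num d c₀ N r : ℝ) * Real.log 2 ≤ A * N ^ 2 +
      (d : ℝ) ^ N * (B * N * V / (2 * Real.pi)) := by
    have h1 : (num d c₀ N r : ℝ) ≤ ∑ m ∈ Finset.range N, ((ZF d m c₀ r).card : ℝ) := by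
      exact_mod_cast num_le_sum d N c₀ r
    calc (num d c₀ N r : ℝ) * Real.log 2
        ≤ (∑ m ∈ Finset.range N, ((ZF d m c₀ r).card : ℝ)) * Real.log 2 := by gcongr
      _ = ∑ m ∈ Finset.range N, ((ZF d m c₀ r).card : ℝ) * Real.log 2 := by
          rw [Finset.sum_mul]
      _ ≤ ∑ m ∈ Finset.range N, (A * N + (d : ℝ) ^ m * (B * N * V / (2 * Real.pi))) := by
          apply Finset.sum_le_sum
          intro m hm
          exact hcard m (Finset.mem_range.1 hm)
      _ = A * N ^ 2 + (∑ m ∈ Finset.range N, (d : ℝ) ^ m) * (B * N * V / (2 * Real.pi)) := by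
          rw [Finset.sum_add_distrib, Finset.sum_const, Finset.card_range, nsmul_eq_mul,
            ← Finset.sum_mul]
          ring
      _ ≤ _ := by
          have h2 : 0 ≤ B * N * V / (2 * Real.pi) := by positivity
          have h3 := mul_le_mul_of_nonneg_right (geom_le hd N) h2
          linarith
  rw [div_mul_eq_mul_div, le_div_iff₀ hlog2]
  refine hsum.trans ?_
  have hX : 0 ≤ (N : ℝ) * (d : ℝ) ^ N * V := by positivity
  have e1 : (d : ℝ) ^ N * (B * N * V / (2 * Real.pi)) = B / (2 * Real.pi) * (N * (d : ℝ) ^ N * V) := by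
    ring
  rw [e1]
  have h4 : 0 ≤ B / (2 * Real.pi) := by positivity
  have h5 : 0 ≤ (N : ℝ) ^ 2 := by positivity
  nlinarith [mul_nonneg h4 h5, mul_nonneg hA0.le hX]

end Pool.Agent.Q186.Loc
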