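import Pool.Agent.Q186.Loc.One
import Pool.Agent.Y736.HG7

/-!
# The number of superattracting parameters in a disc: the upper bound
-/

set_option autoImplicit false

open Complex Metric Set Filter Topology MeasureTheory N62a1eb23

namespace Pool.Agent.Q186.Loc

open Pool.Agent.H712R2 (P P_zero P_one P_succ mem_multibrot_iff)
open Pool.Agent.H713R2
open Pool.Agent.Q186.Cen
open Real (posLog circleAverage)
open Pool.Agent.Y736.HD (cm cm_apply cm_eq Ang Ang_sub vol_Ang_ne sn sn_pos sn_lt sn_lim sn_inv_lim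
  norm_pt isOpen_ext integrable_cont avg_mem avg_ext lower_II upper_I avg_eq integrable_of UU)
open Pool.Agent.Y736.HG (cont_pt psi_ne cont_U mean_le avg_psi ae_land)

/-- **Jensen's inequality** with many zeros. -/
theorem jensen_many {h : ℂ → ℂ} (hh : Differentiable ℂ h) {c : ℂ} (h0 : h c ≠ 0) {R : ℝ}
    (hR : 0 < R) (F : Finset ℂ) (hF : ∀ a ∈ F, h a = 0 ∧ ‖a - c‖ ≤ R / 2) :
    Real.log ‖h c‖ + F.card * Real.log 2 ≤ circleAverage (fun x => Real.log ‖h x‖) c R := by
  have hga : AnalyticOnNhd ℂ h (closedBall c |R|) := fun x _ => hh.analyticAt x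
  have e2 := hga.circleAverage_log_norm hR.ne' h0
  rw [e2]
  have hlog2 : 0 < Real.log 2 := Real.log_pos (by norm_num)
  suffices h3 : (F.card : ℝ) * Real.log 2 ≤
      ∑ᶠ u, MeromorphicOn.divisor h (closedBall c |R|) u * Real.log (R * ‖c - u‖⁻¹) by linarith
  have hnn : ∀ u, 0 ≤ MeromorphicOn.divisor h (closedBall c |R|) u *
      Real.log (R * ‖c - u‖⁻¹) := by
    intro u
    by_cases hu : u ∈ closedBall c |R|
    · apply mul_nonneg
      · exact_mod_cast MeromorphicOn.AnalyticOnNhd.divisor_nonneg hga u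
      · rcases eq_or_ne c u with rfl | hcu
        · simp
        · apply Real.log_nonneg
          have h3 : 0 < ‖c - u‖ := norm_pos_iff.2 (sub_ne_zero.2 hcu)
          rw [← div_eq_mul_inv, le_div_iff₀ h3, one_mul]
          rw [mem_closedBall, dist_comm, dist_eq_norm, abs_of_pos hR] at hu
          exact hu
    · rw [Function.locallyFinsuppWithin.apply_eq_zero_of_notMem _ hu]
      simp
  have hfin : (Function.support fun u => (MeromorphicOn.divisor h (closedBall c |R|) u : ℝ) *
      Real.log (R * ‖c - u‖⁻¹)).Finite :=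
    ((MeromorphicOn.divisor h (closedBall c |R|)).finiteSupport
      (isCompact_closedBall ..)).subset fun _ _ => (by simp_all)
  rw [finsum_eq_sum_of_support_subset (s := hfin.toFinset ∪ F) _ (by
    intro u hu
    rw [Finset.coe_union]
    left
    exact (hfin.mem_toFinset).2 hu)]
  calc (F.card : ℝ) * Real.log 2 = ∑ u ∈ F, Real.log 2 := by
        rw [Finset.sum_const, nsmul_eq_mul]
    _ ≤ ∑ u ∈ F, MeromorphicOn.divisor h (closedBall c |R|) u * Real.log (R * ‖c - u‖⁻¹) := by
        apply Finset.sum_le_sum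
        intro u hu
        obtain ⟨hu0, huR⟩ := hF u hu
        have hcu : c ≠ u := by
          rintro rfl
          exact h0 hu0
        have h3 : 0 < ‖c - u‖ := norm_pos_iff.2 (sub_ne_zero.2 hcu)
        have huc : ‖c - u‖ ≤ R / 2 := by rw [norm_sub_rev]; exact huR
        have hmem : u ∈ closedBall c |R| := by
          rw [mem_closedBall, dist_comm, dist_eq_norm, abs_of_pos hR]
          linarith
        have h4 : Real.log 2 ≤ Real.log (R * ‖c - u‖⁻¹) := by
          apply Real.log_le_log (by norm_num)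
          rw [← div_eq_mul_inv, le_div_iff₀ h3]
          linarith
        have h5 : (1 : ℝ) ≤ MeromorphicOn.divisor h (closedBall c |R|) u := by
          rw [MeromorphicOn.AnalyticOnNhd.divisor_apply hga hmem]
          have h6 : analyticOrderAt h u ≠ 0 := by
            rw [Ne, (hh.analyticAt u).analyticOrderAt_eq_zero, not_not]
            exact hu0
          have h7 : analyticOrderAt h u ≠ ⊤ := by
            intro h8
            rw [analyticOrderAt_eq_top] at h8
            have h9 : AnalyticOnNhd ℂ h univ := fun x _ => hh.analyticAt x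
            have h10 := h9.eqOn_zero_of_preconnected_of_eventuallyEq_zero isPreconnected_univ
              (mem_univ u) h8
            exact h0 (h10 (mem_univ c))
          obtain ⟨n, hn⟩ := ENat.ne_top_iff_exists.1 h7
          rw [← hn]
          rw [← hn] at h6
          have h11 : n ≠ 0 := by
            rintro rfl
            exact h6 rfl
          have h12 : 1 ≤ n := Nat.one_le_iff_ne_zero.2 h11
          have h13 : (1 : ℤ) ≤ (ENat.map Nat.cast (n : ℕ∞) : WithTop ℤ).untop₀ := by
            rw [ENat.map_natCast]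
            simp only [WithTop.untop₀_coe]
            exact_mod_cast h12
          exact_mod_cast h13
        calc Real.log 2 = 1 * Real.log 2 := (one_mul _).symm
          _ ≤ _ := by
            apply mul_le_mul h5 h4 hlog2.le
            linarith
    _ ≤ _ := Finset.sum_le_sum_of_subset_of_nonneg Finset.subset_union_right
        fun u _ _ => hnn u

variable {d : ℕ} {β ψ : ℂ → ℂ}

/-- lower bound of the mean of the truncated potential by the number of zeros -/
theorem le_mean_zeros (hd2 : 2 ≤ d) (hβ : IsBeta d β) (hψ : IsExteriorMap (multibrotSet d) ψ) {c₀ : ℂ}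
    (hc₀ : c₀ ∈ multibrotSet d) {ρ s : ℝ} (hρ : 0 < ρ) (hs0 : 0 < s) (hs1 : s < 1) {m : ℕ}
    (h0 : P d (m + 1) c₀ ≠ 0) (F : Finset ℂ)
    (hF : ∀ a ∈ F, P d (m + 1) a = 0 ∧ ‖a - c₀‖ ≤ ρ / 2) :
    (Real.log ‖P d (m + 1) c₀‖ + F.card * Real.log 2 - Real.log 2) / (d : ℝ) ^ m + Real.log s ≤
      circleAverage (UU β c₀ ρ) 0 s := by
  obtain ⟨h, hh⟩ : ∃ h : ℂ → ℂ, h = P d (m + 1) := ⟨_, rfl⟩
  have hhd : Differentiable ℂ h := by
    rw [hh]
    exact Pool.Agent.H713R2.differentiable_P d (m + 1)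
  have hJ := jensen_many (Pool.Agent.H713R2.differentiable_P d (m + 1)) h0 hρ F hF
  rw [← hh] at hJ ⊢
  have hlogs : Real.log s < 0 := Real.log_neg hs0 hs1
  have hhi : CircleIntegrable (fun z => Real.log ‖h z‖) c₀ ρ := by
    apply MeromorphicOn.circleIntegrable_log_norm
    intro z _
    exact (hhd.analyticAt z).meromorphicAt
  have hli : CircleIntegrable (fun z => (Real.log ‖h z‖ - Real.log 2) / (d : ℝ) ^ m + Real.log s) c₀ ρ := by
    have h1 : CircleIntegrable (fun z => Real.log ‖h z‖ - Real.log 2) c₀ ρ :=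
      hhi.sub (circleIntegrable_const _ _ _)
    have h2 : CircleIntegrable (fun z => (Real.log ‖h z‖ - Real.log 2) / (d : ℝ) ^ m) c₀ ρ := by
      exact IntervalIntegrable.div_const h1 _
    exact h2.add (circleIntegrable_const _ _ _)
  have hdR : (0 : ℝ) < d := by exact_mod_cast (by omega : 0 < d)
  have h2m : (0 : ℝ) < (d : ℝ) ^ m := by positivity
  have hkey := lower_II hβ hc₀ hρ hs0 hs1 hli (fun z hz => by
    by_cases hzM : z ∈ multibrotSet d
    · rw [avg_mem hβ hzM hs0 hs1]
      have h3 : ‖h z‖ ≤ 2 := by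
        rw [hh]
        exact (mem_multibrot_iff hd2 z).1 hzM (m + 1)
      have h4 : Real.log ‖h z‖ ≤ Real.log 2 := by
        rcases eq_or_lt_of_le (norm_nonneg (h z)) with h5 | h5
        · rw [← h5, Real.log_zero]
          exact Real.log_nonneg (by norm_num)
        · exact Real.log_le_log h5 h3
      have h5 : (Real.log ‖h z‖ - Real.log 2) / (d : ℝ) ^ m ≤ 0 :=
        div_nonpos_of_nonpos_of_nonneg (by linarith) h2m.le
      linarith
    · have h1 : z ∈ (multibrotSet d)ᶜ := hzM
      rw [← hψ.image] at h1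
      obtain ⟨w, hw, rfl⟩ := h1
      have hw' : 1 < ‖w‖ := hw
      have h5 : ‖h (ψ w)‖ ≤ 2 * ‖w‖ ^ (d ^ m) := by
        rw [hh]
        exact Pool.Agent.W677.MC.P_le_two hd2 hψ hw m
      have h4 : (1 : ℝ) ≤ ‖w‖ ^ (d ^ m) := one_le_pow₀ hw'.le
      have h6 : Real.log ‖h (ψ w)‖ ≤ Real.log 2 + (d : ℝ) ^ m * Real.log ‖w‖ := by
        have e : Real.log (2 * ‖w‖ ^ (d ^ m)) = Real.log 2 + (d : ℝ) ^ m * Real.log ‖w‖ := by
          rw [Real.log_mul (by norm_num) (by positivity), Real.log_pow]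
          push_cast
          ring
        rw [← e]
        rcases eq_or_lt_of_le (norm_nonneg (h (ψ w))) with h7 | h7
        · rw [← h7, Real.log_zero]
          exact Real.log_nonneg (by linarith)
        · exact Real.log_le_log h7 h5
      have h8 : (Real.log ‖h (ψ w)‖ - Real.log 2) / (d : ℝ) ^ m ≤ Real.log ‖w‖ := by
        rw [div_le_iff₀ h2m]
        linarith
      have e1 := avg_ext hβ hw hs0 hs1
      rw [← exteriorMap_unique hβ hψ hw] at e1
      rw [e1]
      have h9 : Real.log (s * ‖w‖) ≤ posLog (s * ‖w‖) := le_max_right _ _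
      rw [Real.log_mul hs0.ne' (by linarith)] at h9
      linarith)
  refine le_trans ?_ hkey
  have e2 : circleAverage (fun z => (Real.log ‖h z‖ - Real.log 2) / (d : ℝ) ^ m + Real.log s) c₀ ρ =
      (circleAverage (fun z => Real.log ‖h z‖) c₀ ρ - Real.log 2) / (d : ℝ) ^ m + Real.log s := by
    rw [avg_eq, avg_eq]
    have hi := integrable_of hhi
    have i1 : Integrable (fun θ => Real.log ‖h (circleMap c₀ ρ θ)‖ - Real.log 2) cm :=
      hi.sub (integrable_const _)
    have i2 : Integrable (fun θ => (Real.log ‖h (circleMap c₀ ρ θ)‖ - Real.log 2) / (d : ℝ) ^ m) cm :=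
      i1.div_const _
    rw [integral_add i2 (integrable_const _), integral_div, integral_sub hi (integrable_const _)]
    simp
  rw [e2]
  gcongr

/-- From the mean to the landing points. -/
theorem le_vol_T (hd2 : 2 ≤ d) (hψ : IsExteriorMap (multibrotSet d) ψ)
    {c₀ : ℂ} (hc₀ : c₀ ∈ multibrotSet d)
    {ρ' ρ r S T : ℝ} (hρ' : 0 < ρ') (hρ : ρ' < ρ) (hr : ρ < r) (hS0 : 0 ≤ S)
    (hS : ∀ w : ℂ, 1 < ‖w‖ → ‖ψ w - c₀‖ ≤ ρ' → Real.log ‖w‖ ≤ S)
    (hT : ∀ β : ℂ → ℂ, IsBeta d β → ∀ s : ℝ, 0 < s → s < 1 →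
      T + Real.log s ≤ circleAverage (UU β c₀ ρ) 0 s) :
    T - S ≤ Real.log (ρ / ρ') * (volume (Ang ψ c₀ r)).toReal / (2 * Real.pi) := by
  obtain ⟨β, hβ⟩ := exists_beta (d := d) hd2
  have hae := ae_land hd2 hψ
  have hpi := Real.pi_pos
  have hρ0 : 0 < ρ := hρ'.trans hρ
  obtain ⟨A, hA⟩ : ∃ A, A = Real.log (ρ / ρ') := ⟨_, rfl⟩
  have hA0 : 0 < A := by
    rw [hA]
    apply Real.log_pos
    rwa [lt_div_iff₀ hρ', one_mul]
  rw [← hA]
  obtain ⟨D, hD⟩ : ∃ D : ℕ → Set ℝ, D = fun n =>
      {θ : ℝ | ‖ψ (((sn n)⁻¹ : ℝ) * exp (θ * I)) - c₀‖ < ρ} := ⟨_, rfl⟩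
  have hDm : ∀ n, MeasurableSet (D n) := by
    intro n
    rw [hD]
    exact (isOpen_lt ((cont_pt hψ (sn_pos n) (sn_lt n)).sub continuous_const).norm
      continuous_const).measurableSet
  -- each level
  have hlev : ∀ n, T + Real.log (sn n) ≤ A * cm.real (D n) + S := by
    intro n
    have h1 := hT β hβ _ (sn_pos n) (sn_lt n)
    have h2 := mean_le hβ hψ hc₀ hρ' (sn_pos n) (sn_lt n) hS0 hS
    rw [avg_psi hβ hψ c₀ _ (sn_pos n) (sn_lt n)] at h1 h2
    refine h1.trans (le_trans ?_ (add_le_add le_rfl h2))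
    have h3 : Integrable ((D n).indicator fun _ => (1 : ℝ)) cm :=
      (integrable_const _).indicator (hDm n)
    have h4 : cm.real (D n) = ∫ θ, (D n).indicator (fun _ => (1 : ℝ)) θ ∂cm := by
      rw [integral_indicator (hDm n), setIntegral_const, smul_eq_mul, mul_one]
    rw [h4, ← integral_const_mul, ← integral_add (h3.const_mul A)
      (integrable_cont (cont_U hψ hc₀ ρ' (sn_pos n) (sn_lt n)))]
    apply integral_mono (integrable_cont (cont_U hψ hc₀ ρ (sn_pos n) (sn_lt n)))
      ((h3.const_mul A).add (integrable_cont (cont_U hψ hc₀ ρ' (sn_pos n) (sn_lt n))))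
    intro θ
    show posLog (ρ / ‖ψ (((sn n)⁻¹ : ℝ) * exp (θ * I)) - c₀‖) ≤
      A * (D n).indicator (fun _ => (1 : ℝ)) θ +
        posLog (ρ' / ‖ψ (((sn n)⁻¹ : ℝ) * exp (θ * I)) - c₀‖)
    obtain ⟨t, ht⟩ : ∃ t, t = ‖ψ (((sn n)⁻¹ : ℝ) * exp (θ * I)) - c₀‖ := ⟨_, rfl⟩
    have ht0 : 0 < t := by
      rw [ht]
      exact norm_pos_iff.2 (sub_ne_zero.2 (psi_ne hψ hc₀ (norm_pt (sn_pos n) (sn_lt n) θ)))
    by_cases hθ : θ ∈ D n
    · rw [indicator_of_mem hθ, mul_one, ← ht]
      have h5 : t < ρ := by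
        rw [hD] at hθ
        rw [ht]
        exact hθ
      have h6 : 1 ≤ |ρ / t| := by
        rw [abs_of_pos (by positivity), le_div_iff₀ ht0]
        linarith
      rw [Real.posLog_eq_log h6]
      have h7 : Real.log (ρ / t) = A + Real.log (ρ' / t) := by
        rw [hA, ← Real.log_mul (by positivity) (by positivity)]
        congr 1
        field_simp
      rw [h7]
      have : Real.log (ρ' / t) ≤ posLog (ρ' / t) := le_max_right _ _
      linarith
    · rw [indicator_of_notMem hθ, mul_zero, zero_add, ← ht]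
      have h5 : ρ ≤ t := by
        rw [hD] at hθ
        rw [ht]
        exact not_lt.1 hθ
      have h6 : posLog (ρ / t) = 0 := by
        rw [Real.posLog_eq_zero_iff, abs_of_pos (by positivity), div_le_one ht0]
        exact h5
      rw [h6]
      exact Real.posLog_nonneg
  -- the upper limit of the sets
  obtain ⟨E, hE⟩ : ∃ E : ℕ → Set ℝ, E = fun N => ⋃ n, D (N + n) := ⟨_, rfl⟩
  have hEm : ∀ N, MeasurableSet (E N) := by
    intro N
    rw [hE]
    exact MeasurableSet.iUnion fun n => hDm _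
  have hanti : Antitone E := by
    intro N N' h
    rw [hE]
    apply iUnion_subset
    intro n
    obtain ⟨k, rfl⟩ := Nat.exists_eq_add_of_le h
    rw [show N + k + n = N + (k + n) by ring]
    exact subset_iUnion (fun n => D (N + n)) (k + n)
  have hElow : ∀ N, (T - S) / A ≤ cm.real (E N) := by
    intro N
    have h1 : ∀ n, (T + Real.log (sn (N + n)) - S) / A ≤ cm.real (E N) := by
      intro n
      have h2 : cm.real (D (N + n)) ≤ cm.real (E N) := by
        refine measureReal_mono ?_ (measure_ne_top _ _)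
        rw [hE]
        exact subset_iUnion (fun n => D (N + n)) n
      rw [div_le_iff₀ hA0]
      have h3 := hlev (N + n)
      nlinarith
    have h2 : Tendsto (fun n => (T + Real.log (sn (N + n)) - S) / A) atTop
        (𝓝 ((T + Real.log 1 - S) / A)) := by
      have h3 : Tendsto (fun n => sn (N + n)) atTop (𝓝 1) := by
        have := sn_lim.comp (tendsto_add_atTop_nat N)
        refine this.congr fun n => ?_
        show sn (n + N) = sn (N + n)
        rw [add_comm]
      have h4 := (Real.continuousAt_log one_ne_zero).tendsto.comp h3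
      exact ((h4.const_add T).sub_const S).div_const A
    rw [Real.log_one, add_zero] at h2
    exact le_of_tendsto' h2 h1
  have hlim : (T - S) / A ≤ cm.real (⋂ N, E N) := by
    have h1 : Tendsto (fun N => cm (E N)) atTop (𝓝 (cm (⋂ N, E N))) :=
      tendsto_measure_iInter_atTop (fun N => (hEm N).nullMeasurableSet) hanti
        ⟨0, measure_ne_top _ _⟩
    have h2 : Tendsto (fun N => cm.real (E N)) atTop (𝓝 (cm.real (⋂ N, E N))) :=
      (ENNReal.tendsto_toReal (measure_ne_top _ _)).comp h1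
    exact ge_of_tendsto' h2 hElow
  -- almost every angle of the upper limit lands in the ball
  have hsub : volume ((⋂ N, E N) ∩ Ioc 0 (2 * Real.pi)) ≤ volume (Ang ψ c₀ r) := by
    apply measure_mono_ae
    filter_upwards [hae] with θ hθ hmem
    obtain ⟨hθ1, hθ2⟩ := hmem
    obtain ⟨ζ, hζ⟩ := hθ
    refine ⟨hθ2, ζ, ?_, hζ⟩
    rw [mem_ball, dist_eq_norm]
    refine lt_of_le_of_lt ?_ hr
    have h4 : Tendsto (fun n => ‖ψ (((sn n)⁻¹ : ℝ) * exp (θ * I)) - c₀‖) atTop (𝓝 ‖ζ - c₀‖) :=
      ((hζ.comp sn_inv_lim).sub_const c₀).norm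
    apply le_of_tendsto_of_frequently h4
    rw [frequently_atTop]
    intro N
    have h5 := mem_iInter.1 hθ1 N
    rw [hE] at h5
    obtain ⟨n, hn⟩ := mem_iUnion.1 h5
    refine ⟨N + n, Nat.le_add_right _ _, ?_⟩
    rw [hD] at hn
    exact le_of_lt hn
  have h1 : cm.real (⋂ N, E N) ≤ (2 * Real.pi)⁻¹ * (volume (Ang ψ c₀ r)).toReal := by
    unfold Measure.real
    rw [cm_eq, ENNReal.toReal_mul, ENNReal.toReal_ofReal (by positivity)]
    gcongr
    exact vol_Ang_ne ψ c₀ r
  have h2 := hlim.trans h1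
  rw [div_le_iff₀ hA0] at h2
  refine h2.trans (le_of_eq ?_)
  field_simp

end Pool.Agent.Q186.Loc
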